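import Pool.Agent.Q235.GF.Fin

/-!
# Green functions on trees of finite cone type have continuous boundary values
-/

set_option autoImplicit false

namespace Pool.Agent.Results.MP_ae9099_mp.BoundaryContinuity

open Filter Topology

/-- The conditions on the substitution matrix: positive diagonal and primitive. -/
structure IsAdmissible {A : Type} [Fintype A] [DecidableEq A] (M : Matrix A A ℕ) : Prop where
  diag : ∀ j, 1 ≤ M j j
  primitive : ∃ n : ℕ, ∀ j k, 0 < (M ^ n) j k

/-- The rooted tree `𝕋(M, j)` with its labelling: it is given by the root and the parent map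
(every vertex reaches the root by iterating the parent map; the value at the root is irrelevant),
the root has label `j`, and every vertex `x` has exactly `M (label x) l` children of label `l`. -/
structure LabelledTree {A : Type} (M : Matrix A A ℕ) (j : A) where
  V : Type
  root : V
  parent : V → V
  label : V → A
  parent_root : parent root = root
  reach : ∀ x, ∃ n : ℕ, parent^[n] x = root
  label_root : label root = j
  children : ∀ x l, {y | y ≠ root ∧ parent y = x ∧ label y = l}.encard = M (label x) l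

/-- Two vertices are neighbours if one of them is the parent of the other. -/
def LabelledTree.Adj {A : Type} {M : Matrix A A ℕ} {j : A} (𝕋 : LabelledTree M j)
    (x y : 𝕋.V) : Prop :=
  (y ≠ 𝕋.root ∧ 𝕋.parent y = x) ∨ (x ≠ 𝕋.root ∧ 𝕋.parent x = y)

/-- The set `V_x`: the vertex `x` and all its descendants. -/
def LabelledTree.below {A : Type} {M : Matrix A A ℕ} {j : A} (𝕋 : LabelledTree M j)
    (x : 𝕋.V) : Set 𝕋.V :=
  {y | ∃ n : ℕ, 𝕋.parent^[n] y = x}

/-- The coefficients `t`, `w` define a label invariant operator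
`(T φ)(x) = ∑_y t(x, y) φ(y) + w(x) φ(x)` on `ℓ²(V, ν)`, with the constants `mm j k` (in the text
`m_{j,k}`) and `m j`.  (The fifth condition is imposed only when `y` is a child of `x`.  Such an
operator is automatically bounded and self-adjoint.) -/
structure IsLabelInvariant {A : Type} {M : Matrix A A ℕ} {j : A} (𝕋 : LabelledTree M j)
    (ν : 𝕋.V → ℝ) (t : 𝕋.V → 𝕋.V → ℂ) (w : 𝕋.V → ℝ) (mm : A → A → ℝ) (m : A → ℝ) : Prop where
  weight_pos : ∀ x, 0 < ν x
  weight_label : ∀ x y, 𝕋.label x = 𝕋.label y → ν x = ν y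
  ne_zero_iff : ∀ x y, t x y ≠ 0 ↔ 𝕋.Adj x y
  symm : ∀ x y, t x y * (ν x : ℂ) = (starRingEnd ℂ) (t y x) * (ν y : ℂ)
  norm_sq : ∀ x y, y ≠ 𝕋.root → 𝕋.parent y = x →
    ‖t x y‖ ^ 2 * (M (𝕋.label x) (𝕋.label y) : ℝ) = mm (𝕋.label x) (𝕋.label y)
  potential : ∀ x, w x = m (𝕋.label x)

/-- The function `u` belongs to `ℓ²(V, ν)`. -/
def SquareSummable {V : Type} (ν : V → ℝ) (u : V → ℂ) : Prop :=
  Summable fun x => ν x * ‖u x‖ ^ 2

/-- `u = (T_S - z)⁻¹ δ_x`, where `T_S` is the operator on `ℓ²(S, ν)` given by the coefficients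
`t` and `w` with the sum restricted to `S`: the function `u` is in `ℓ²`, it vanishes outside
`S`, and `(T - z) u = δ_x` on `S`. -/
def IsResolventVector {V : Type} (ν : V → ℝ) (t : V → V → ℂ) (w : V → ℝ) (S : Set V) (z : ℂ)
    (x : V) (u : V → ℂ) : Prop :=
  SquareSummable ν u ∧ (∀ y, y ∉ S → u y = 0) ∧
    ∀ y ∈ S, ∑' y', t y y' * u y' + (w y : ℂ) * u y - z * u y = Set.indicator {x} 1 y

open Classical in
/-- The Green function `⟨δ_x, (T_S - z)⁻¹ δ_x⟩` in `ℓ²(S, ν)`: the number `ν(x) u(x)` for
`u = (T_S - z)⁻¹ δ_x` (with the value `0` if there is no such `u`). -/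
noncomputable def green {V : Type} (ν : V → ℝ) (t : V → V → ℂ) (w : V → ℝ) (S : Set V)
    (x : V) (z : ℂ) : ℂ :=
  if h : ∃ u, IsResolventVector ν t w S z x u then (ν x : ℂ) * h.choose x else 0

/-- The function `f` on the upper half plane has a boundary value at every real point, along the
vertical direction and also along an arbitrary approach in the upper half plane, and the boundary
value depends continuously on the real point. -/
def HasContinuousBoundaryValues (f : ℂ → ℂ) : Prop :=
  ∃ f₀ : ℝ → ℂ, Continuous f₀ ∧ ∀ E : ℝ,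
    Tendsto (fun η : ℝ => f ((E : ℂ) + (η : ℂ) * Complex.I)) (𝓝[>] 0) (𝓝 (f₀ E)) ∧
    Tendsto f (𝓝[{z : ℂ | 0 < z.im}] (E : ℂ)) (𝓝 (f₀ E))

/-- For every label invariant operator on a tree of finite cone type and every vertex `x`, the
vectors `(T_x - z)⁻¹ δ_x` and `(T - z)⁻¹ δ_x` exist and are unique for `z` in the upper half
plane, and the Green functions `Γ_x` and `G_x` have boundary values at every real point, which
are continuous on the real line. -/
theorem result {A : Type} [Fintype A] [DecidableEq A] (M : Matrix A A ℕ) (hM : IsAdmissible M)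
    (j : A) (𝕋 : LabelledTree M j) (ν : 𝕋.V → ℝ) (t : 𝕋.V → 𝕋.V → ℂ) (w : 𝕋.V → ℝ)
    (mm : A → A → ℝ) (m : A → ℝ) (hT : IsLabelInvariant 𝕋 ν t w mm m) (x : 𝕋.V) :
    (∀ z : ℂ, 0 < z.im → ∃! u, IsResolventVector ν t w (𝕋.below x) z x u) ∧
    (∀ z : ℂ, 0 < z.im → ∃! u, IsResolventVector ν t w Set.univ z x u) ∧
    HasContinuousBoundaryValues (green ν t w (𝕋.below x) x) ∧
    HasContinuousBoundaryValues (green ν t w Set.univ x) :=
  Q235.GF.final (M := M) (root := 𝕋.root) (parent := 𝕋.parent) (label := 𝕋.label)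
    ⟨hM.diag, hM.primitive, 𝕋.parent_root, 𝕋.reach, 𝕋.children⟩
    ⟨hT.weight_pos, hT.weight_label, hT.ne_zero_iff, hT.symm, hT.norm_sq, hT.potential⟩ x

end Pool.Agent.Results.MP_ae9099_mp.BoundaryContinuity
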